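import Pool.Agent.Y192.FA.StB
import Pool.Agent.W603.BP.LWron
import Pool.Agent.W603.LV.Wr
import Pool.Agent.W603.LV.Loc

set_option autoImplicit false

namespace Pool.Agent.Y945.FA

open Pool.Agent.Y192.FA
open Filter Set Topology FF Pool.Agent.W603.LV Pool.Agent.W603.BP

theorem ord_prod (ho : St_ord) {N : ℕ} (c : Curve N) {z : c.P} (hz : z ∈ c.E) {ι : Type}
    (s : Finset ι) (g : ι → c.Mr) (k : ι → ℤ) (h : ∀ i ∈ s, (k i : WithTop ℤ) ≤ c.ord z (g i)) :
    ((∑ i ∈ s, k i : ℤ) : WithTop ℤ) ≤ c.ord z (∏ i ∈ s, g i) := by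
  classical
  obtain ⟨h1, _, _, _, _, h6⟩ := (ho N c).1 z hz
  induction s using Finset.induction_on with
  | empty =>
    rw [Finset.prod_empty, Finset.sum_empty, ← c.mon_zero, h6]
    unfold Curve.del
    simp
  | insert a s ha ih =>
    rw [Finset.prod_insert ha, Finset.sum_insert ha, h1, WithTop.coe_add]
    exact add_le_add (h a (Finset.mem_insert_self a s))
      (ih fun i hi => h i (Finset.mem_insert_of_mem hi))

theorem ord_sum (ho : St_ord) {N : ℕ} (c : Curve N) {z : c.P} (hz : z ∈ c.E) {ι : Type}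
    (s : Finset ι) (g : ι → c.Mr) (k : WithTop ℤ) (h : ∀ i ∈ s, k ≤ c.ord z (g i)) :
    k ≤ c.ord z (∑ i ∈ s, g i) := by
  classical
  obtain ⟨_, h2, _⟩ := (ho N c).1 z hz
  induction s using Finset.induction_on with
  | empty =>
    rw [Finset.sum_empty, c.ord_top]
    exact le_top
  | insert a s ha ih =>
    rw [Finset.sum_insert ha]
    exact (le_min (h a (Finset.mem_insert_self a s))
      (ih fun i hi => h i (Finset.mem_insert_of_mem hi))).trans (h2 _ _)

theorem ord_iter (ho : St_ord) {N : ℕ} (c : Curve N) {z : c.P} (hz : z ∈ c.E) (f : c.Mr)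
    (k : ℤ) (h : (k : WithTop ℤ) ≤ c.ord z f) (l : ℕ) :
    ((k - l * max 1 (c.bad z) : ℤ) : WithTop ℤ) ≤ c.ord z ((c.Dr : c.Mr → c.Mr)^[l] f) := by
  obtain ⟨_, _, _, _, h5, _⟩ := (ho N c).1 z hz
  induction l with
  | zero => simpa using h
  | succ l ih =>
    rw [Function.iterate_succ_apply']
    have h1 := h5 _ _ ih
    have e : (k - ((l + 1 : ℕ) : ℤ) * max 1 (c.bad z))
        = k - l * max 1 (c.bad z) - max 1 (c.bad z) := by push_cast; ring
    rw [e]
    exact h1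

theorem ord_wrd (ho : St_ord) {N : ℕ} (c : Curve N) {M : ℕ} (f : Fin M → c.Mr) {z : c.P}
    (hz : z ∈ c.E) (k : Fin M → ℤ) (hk : ∀ j, (k j : WithTop ℤ) ≤ c.ord z (f j)) :
    ((∑ j, k j - (M : ℤ) ^ 2 * max 1 (c.bad z) : ℤ) : WithTop ℤ) ≤ c.ord z (c.wrd f) := by
  obtain ⟨_, _, h3, _⟩ := (ho N c).1 z hz
  have hb : 0 ≤ max 1 (c.bad z) := le_trans zero_le_one (le_max_left _ _)
  unfold Curve.wrd
  rw [Matrix.det_apply]
  apply ord_sum ho c hz
  intro σ _
  have h1 : ((∑ j, k j - (M : ℤ) ^ 2 * max 1 (c.bad z) : ℤ) : WithTop ℤ)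
      ≤ c.ord z (∏ i : Fin M,
      (Matrix.of fun b l : Fin M => ((c.Dr : c.Mr → c.Mr)^[(l : ℕ)]) (f b)) (σ i) i) := by
    refine le_trans ?_ (ord_prod ho c hz Finset.univ _
      (fun i : Fin M => k (σ i) - (i : ℕ) * max 1 (c.bad z)) ?_)
    · have h2 : ∑ j, k j - (M : ℤ) ^ 2 * max 1 (c.bad z)
          ≤ ∑ i : Fin M, (k (σ i) - ((i : ℕ) : ℤ) * max 1 (c.bad z)) := by
        rw [Finset.sum_sub_distrib, Equiv.sum_comp σ k]
        have h4 : ∑ i : Fin M, ((i : ℕ) : ℤ) * max 1 (c.bad z)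
            ≤ ∑ _i : Fin M, (M : ℤ) * max 1 (c.bad z) :=
          Finset.sum_le_sum fun i _ => mul_le_mul_of_nonneg_right (by exact_mod_cast i.2.le) hb
        rw [Finset.sum_const, Finset.card_univ, Fintype.card_fin, nsmul_eq_mul] at h4
        have h5 : (M : ℤ) ^ 2 * max 1 (c.bad z) = M * (M * max 1 (c.bad z)) := by ring
        linarith
      exact_mod_cast h2
    · intro i _
      simp only [Matrix.of_apply]
      exact ord_iter ho c hz _ _ (hk _) _
  rcases Int.units_eq_one_or (Equiv.Perm.sign σ) with h | h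
  · rw [h, one_smul]
    exact h1
  · rw [h, Units.neg_smul, one_smul]
    refine h1.trans ((h3 (-1) _).trans ?_)
    rw [neg_smul, one_smul]

/-- the Wronskian in the field -/
theorem coe_wrd {N : ℕ} (c : Curve N) {M : ℕ} (f : Fin M → c.Mr) :
    ((c.wrd f : c.Mr) : c.L) = wr c.D (fun j => (f j : c.L)) := by
  have h1 : ∀ (l : ℕ) (g : c.Mr), (((c.Dr : c.Mr → c.Mr)^[l] g : c.Mr) : c.L)
      = (⇑c.D)^[l] (g : c.L) := by
    intro l g
    induction l with
    | zero => rfl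
    | succ l ih =>
      rw [Function.iterate_succ_apply', Function.iterate_succ_apply', c.coe_Dr, ih]
  unfold Curve.wrd wr
  have h2 : ((Matrix.det (Matrix.of fun b l : Fin M => ((c.Dr : c.Mr → c.Mr)^[(l : ℕ)]) (f b))
      : c.Mr) : c.L) = c.Mr.val.toRingHom
        (Matrix.det (Matrix.of fun b l : Fin M => ((c.Dr : c.Mr → c.Mr)^[(l : ℕ)]) (f b))) := rfl
  rw [h2, RingHom.map_det]
  congr 1
  ext b l
  simp only [RingHom.mapMatrix_apply, Matrix.map_apply, Matrix.of_apply]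
  exact h1 _ _

theorem reg_wr {N : ℕ} (c : Curve N) {M : ℕ} (g : Fin M → c.L) {z : c.P} (hz : z ∈ c.U)
    (hg : ∀ j, z.Reg (g j)) : Ge z 0 (wr c.D g) := by
  have h1 : ∀ (l : ℕ) (j : Fin M), Ge z 0 ((⇑c.D)^[l] (g j)) := by
    intro l j
    induction l with
    | zero => exact hg j
    | succ l ih =>
      rw [Function.iterate_succ_apply']
      exact c.reg_D hz ih
  unfold wr
  rw [Matrix.det_apply]
  apply Ge.sum
  intro σ _
  have h2 : Ge z 0 (∏ i : Fin M, wm (n := M) c.D g (σ i) i) := by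
    have h3 := Ge.prod (P := z) Finset.univ (fun i : Fin M => wm (n := M) c.D g (σ i) i)
      (fun _ => 0) (fun i _ => h1 _ _)
    simpa using h3
  rcases Int.units_eq_one_or (Equiv.Perm.sign σ) with h | h
  · rw [h, one_smul]
    exact h2
  · rw [h, Units.neg_smul, one_smul]
    exact h2.neg

theorem ord_wrd_U {N : ℕ} (c : Curve N) {M : ℕ} (f : Fin M → c.Mr) {z : c.P}
    (hz : z ∈ c.U) (k : ℕ) (hk : ∀ j, (k : WithTop ℤ) ≤ c.ord z (f j)) :
    ((M * k : ℕ) : WithTop ℤ) ≤ c.ord z (c.wrd f) := by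
  have hu := ord_unif z
  have hu0 : unif z ≠ 0 := by
    intro h
    rw [h, z.ord_zero] at hu
    exact zero_ne_one hu
  have hk' : ∀ j, Ge z k (f j : c.L) := fun j => (c.le_ord).mp (by exact_mod_cast hk j)
  have huk : unif z ^ k ≠ 0 := pow_ne_zero _ hu0
  set g : Fin M → c.L := fun j => (f j : c.L) / unif z ^ k with hgdef
  have hfg : ∀ j, (f j : c.L) = unif z ^ k * g j := fun j => by
    rw [hgdef]
    field_simp
  have hg : ∀ j, z.Reg (g j) := by
    intro j
    have h1 := hk' j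
    rw [hfg j] at h1
    have h2 := Ge.of_mul' (P := z) (N := 0) (m := (k : ℤ)) huk
      (by rw [z.ord_pow, hu, mul_one]) (by simpa using h1)
    exact h2
  have h3 : ((c.wrd f : c.Mr) : c.L) = (unif z ^ k) ^ M * wr c.D g := by
    rw [coe_wrd]
    have h4 := wr_change c.D 1 (unif z ^ k) g
    rw [one_smul] at h4
    simp only [one_pow, one_mul, Finset.prod_const, Finset.card_univ, Fintype.card_fin] at h4
    rw [← h4]
    congr 1
    funext j
    exact hfg j
  have h5 : (((M * k : ℕ) : ℤ) : WithTop ℤ) ≤ c.ord z (c.wrd f) := by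
    rw [c.le_ord, h3, ← pow_mul]
    have h6 : Ge z ((k * M : ℕ) * 1) (unif z ^ (k * M)) := (Ge.pow (Or.inr hu.ge) _)
    have h7 := h6.mul (reg_wr c g hz hg)
    have e : ((k * M : ℕ) : ℤ) * 1 + 0 = ((M * k : ℕ) : ℤ) := by push_cast; ring
    rw [e] at h7
    exact h7
  exact_mod_cast h5

theorem t_wr : St_ring → St_ord → St_wr := by
  intro hr ho N c M f
  obtain ⟨hr1, hr2, hr3, _⟩ := hr N c
  refine ⟨?_, fun z hz k hk => ord_wrd ho c f hz k hk, fun z hz k hk => ord_wrd_U c f hz k hk⟩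
  intro hli h0
  have hnz : NoZeroDivisors c.Mr := ⟨fun {a b} h => hr1 a b h⟩
  have hdom : IsDomain c.Mr := NoZeroDivisors.to_isDomain c.Mr
  obtain ⟨x, hx0, hx⟩ := wron_dep_abs c.Dr hr3 M f h0
  apply hx0
  funext i
  exact Fintype.linearIndependent_iff.mp hli x hx i

end Pool.Agent.Y945.FA
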